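import Pool.Agent.H631.EI.ZStm

/-!
# Project EI (helper631), Z2: singletons are small, the whole space is not
-/

set_option autoImplicit false

namespace Pool.Agent.H661.EI

open Pool.Agent.H631.EI Pool.Agent.H631.EV Cardinal Filter Topology

theorem th_SING : S_SING := by
  classical
  intro x
  refine ⟨fun n => {res Pool.Agent.H631.EI.aa n x}, Pool.Agent.H631.EI.sigma_of_le fun n => ?_, ?_⟩
  · rw [Finset.card_singleton]
    exact Pool.Agent.H631.EI.VV_pos n
  · rintro y hy
    rw [Set.mem_singleton_iff] at hy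
    subst hy
    exact ⟨0, fun n _ => Finset.mem_singleton_self _⟩

theorem th_UNIV : S_UNIV := by
  rintro ⟨φ, hφ, hsub⟩
  obtain ⟨N, h⟩ := Pool.Agent.H631.EI.small_of hφ
  have h1 : ∀ n, ∃ w : Iv Pool.Agent.H631.EI.aa n → Bool, N ≤ n → w ∉ φ n := by
    intro n
    by_cases hN : N ≤ n
    swap
    · exact ⟨fun _ => false, fun h => absurd h hN⟩
    have h2 : (φ n).card < (Finset.univ : Finset (Iv Pool.Agent.H631.EI.aa n → Bool)).card := by
      rw [Finset.card_univ, Pool.Agent.H631.EI.card_Iv, Pool.Agent.H631.EI.bb_eq]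
      refine lt_of_le_of_lt (h n hN) ?_
      exact Nat.mul_lt_mul_of_pos_right (Pool.Agent.H631.EI.lt_VV n) (Pool.Agent.H631.EI.VV_pos n)
    obtain ⟨w, -, hw⟩ := Finset.exists_mem_notMem_of_card_lt_card h2
    exact ⟨w, fun _ => hw⟩
  choose w hw using h1
  obtain ⟨x, hx⟩ := glue Pool.Agent.H631.EI.aa_part w
  obtain ⟨M, hM⟩ := hsub (Set.mem_univ x)
  have h2 := hM (max M N) (le_max_left _ _)
  rw [hx] at h2
  exact hw _ (le_max_right _ _) h2

end Pool.Agent.H661.EI
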